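import Pool.Agent.Lib.MP_e46711_an.H35.PsiL

/-!
# Module D, part 3: the explicit numbers
-/

open Set

namespace Pool.Agent.Lib.MP_e46711_an.H35

/-! ### The profile at special points -/

theorem s_bounds {σ : ℝ} (hσ : 0 < σ) (hσ1 : σ ≤ 1) : 0 < 3 / 4 * σ ^ 7 ∧ 3 / 4 * σ ^ 7 ≤ 1 := by
  have h1 : σ ^ 7 ≤ 1 := pow_le_one₀ hσ.le hσ1
  constructor
  · positivity
  · linarith

theorem angle_eq {L A : ℝ} (hL : 0 < L) :
    (1 - 1 / 8) * √L * (16 * A / (7 * √L)) / 2 = A := by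
  have h : 0 < √L := Real.sqrt_pos.2 hL
  field_simp
  ring

theorem t_pos {L σ : ℝ} (hL : 0 < L) (hσ : 0 < σ) (hσ1 : σ ≤ 1) :
    0 < 16 * Real.arcsin (3 / 4 * σ ^ 7) / (7 * √L) := by
  have h : 0 < √L := Real.sqrt_pos.2 hL
  have h2 : 0 < Real.arcsin (3 / 4 * σ ^ 7) := Real.arcsin_pos.2 (s_bounds hσ hσ1).1
  positivity

theorem prof_eq {L σ : ℝ} (hL : 0 < L) (hσ : 0 < σ) (hσ1 : σ ≤ 1) :
    prof (1 / 8) L (16 * Real.arcsin (3 / 4 * σ ^ 7) / (7 * √L)) = σ ^ 16 := by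
  have hs := s_bounds hσ hσ1
  unfold prof
  rw [if_neg (not_le.2 (t_pos hL hσ hσ1)), angle_eq hL,
    Real.sin_arcsin (by linarith [hs.1]) hs.2]
  have h1 : (2 / (1 / 8 + 1) * (3 / 4 * σ ^ 7) ^ 2 : ℝ) = σ ^ (14 : ℕ) := by ring
  rw [h1, ← Real.rpow_natCast σ 14, ← Real.rpow_mul hσ.le, ← Real.rpow_natCast σ 16]
  norm_num

theorem prof'_eq {L σ : ℝ} (hL : 0 < L) (hσ : 0 < σ) (hσ1 : σ ≤ 1) :
    prof' (1 / 8) L (16 * Real.arcsin (3 / 4 * σ ^ 7) / (7 * √L)) =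
      √L * σ ^ 16 * (√(1 - (3 / 4 * σ ^ 7) ^ 2) / (3 / 4 * σ ^ 7)) := by
  have hs := s_bounds hσ hσ1
  unfold prof'
  rw [if_neg (not_le.2 (t_pos hL hσ hσ1)), prof_eq hL hσ hσ1, angle_eq hL,
    Real.cot_eq_cos_div_sin, Real.cos_arcsin, Real.sin_arcsin (by linarith [hs.1]) hs.2]

/-! ### Elementary numerical facts -/

theorem arcsin_lt : Real.arcsin (3 / 5) < 2 / 3 := by
  rw [Real.arcsin_lt_iff_lt_sin ⟨by norm_num, by norm_num⟩
    ⟨by linarith [Real.pi_gt_three], by linarith [Real.pi_gt_three]⟩]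
  have h := Real.sin_bound (x := 2 / 3) (by norm_num [abs_le])
  have h1 := (abs_le.1 h).1
  rw [abs_of_pos (by norm_num : (0 : ℝ) < 2 / 3)] at h1
  norm_num at h1
  linarith

theorem le_arcsin : 3 / 5 ≤ Real.arcsin (3 / 5) := by
  have h0 : 0 ≤ Real.arcsin (3 / 5) := Real.arcsin_nonneg.2 (by norm_num)
  have h := Real.sin_le h0
  rwa [Real.sin_arcsin (by norm_num) (by norm_num)] at h

theorem sqrtL0_pos : 0 < √(33966 / 889 : ℝ) := Real.sqrt_pos.2 (by norm_num)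

theorem sqrtL1_ge : (619 / 100 : ℝ) ≤ √(958 / 25) := by
  refine Real.le_sqrt_of_sq_le ?_
  norm_num

theorem sqrtL0_le : √(33966 / 889 : ℝ) ≤ 6182 / 1000 := by
  rw [Real.sqrt_le_left (by norm_num)]
  norm_num

theorem sqrt01 : 1001 / 1000 * √(33966 / 889 : ℝ) ≤ √(958 / 25) := by
  refine Real.le_sqrt_of_sq_le ?_
  rw [mul_pow, Real.sq_sqrt (by norm_num)]
  norm_num

theorem sqrt02 : √(1917 / 50) ≤ 501 / 500 * √(33966 / 889 : ℝ) := by
  rw [Real.sqrt_le_left (by positivity), mul_pow, Real.sq_sqrt (by norm_num)]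
  norm_num

/-- the length of the tube -/
noncomputable def tau0 : ℝ := 16 * Real.arcsin (3 / 5) / (7 * √(33966 / 889))

theorem tau0_pos : 0 < tau0 := by
  unfold tau0
  have h1 := sqrtL0_pos
  have h2 := le_arcsin
  positivity

theorem tau0_lt : √(1917 / 50) * tau0 < Real.pi / 2 := by
  have h0 := sqrtL0_pos
  have h1 := sqrt02
  have h2 := arcsin_lt
  have h3 := le_arcsin
  have h4 : √(1917 / 50) * tau0 ≤ 501 / 500 * √(33966 / 889 : ℝ) * tau0 :=
    mul_le_mul_of_nonneg_right h1 tau0_pos.le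
  have h5 : 501 / 500 * √(33966 / 889 : ℝ) * tau0 = 501 / 500 * (16 / 7) * Real.arcsin (3 / 5) := by
    unfold tau0
    field_simp
  have h6 := Real.pi_gt_d2
  rw [h5] at h4
  linarith

/-- the parameters -/
noncomputable def P0 : Par where
  p := 1 / 8
  M := 35 / 36
  m := 1 / 36
  a := 39
  c := 53 / 250
  τ := tau0
  L0 := 33966 / 889
  L1 := 958 / 25
  L2 := 1917 / 50
  t1 := 200
  t0 := 256
  t2 := 320
  hp0 := by norm_num
  hp1 := by norm_num
  hM := by norm_num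
  hm := by norm_num
  hMm := by norm_num
  ha := by norm_num
  hc := by norm_num
  hτ := tau0_pos
  hL0 := by norm_num
  hL01 := by norm_num
  hL12 := by norm_num
  hτ2 := tau0_lt
  hnear := by norm_num
  ht1 := by norm_num
  ht10 := by norm_num
  ht02 := by norm_num

/-! ### Dead pairs -/

theorem dead_of {x y σ σ' : ℝ} (hx : x < 1) (hσ : 0 < σ) (hσ1 : σ < 1) (hσ' : 0 < σ')
    (hσ'1 : σ' < 1)
    (hsum : (Real.arcsin (3 / 4 * σ ^ 7) + Real.arcsin (3 / 4 * σ' ^ 7)) * √(33966 / 889) <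
      Real.arcsin (3 / 5) * √(958 / 25))
    (h1 : 39 * (x - σ ^ 16) < 958 / 25 * (σ ^ 2 - σ ^ 16))
    (h2 : 53 / 250 * (y - σ' ^ 16) <
      √(958 / 25) * σ' ^ 16 * (√(1 - (3 / 4 * σ' ^ 7) ^ 2) / (3 / 4 * σ' ^ 7))) :
    P0.Dead (958 / 25) x y := by
  have hL : (0 : ℝ) < 958 / 25 := by norm_num
  have hp1 := prof_eq hL hσ hσ1.le
  have hp2 := prof_eq hL hσ' hσ'1.le
  have hp3 := prof'_eq hL hσ' hσ'1.le
  refine ⟨hx, 16 * Real.arcsin (3 / 4 * σ ^ 7) / (7 * √(958 / 25)),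
    16 * Real.arcsin (3 / 4 * σ' ^ 7) / (7 * √(958 / 25)), t_pos hL hσ hσ1.le,
    t_pos hL hσ' hσ'1.le, ?_, ?_, ?_, ?_⟩
  · show _ < tau0
    unfold tau0
    have h3 := sqrtL0_pos
    have h4 : 0 < √(958 / 25 : ℝ) := Real.sqrt_pos.2 hL
    rw [← add_div, div_lt_div_iff₀ (by positivity) (by positivity)]
    nlinarith
  · show prof (1 / 8) (958 / 25) _ < 1
    rw [hp1]
    exact pow_lt_one₀ hσ.le hσ1 (by norm_num)
  · show 39 * (x - prof (1 / 8) (958 / 25) _) <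
      958 / 25 * ((prof (1 / 8) (958 / 25) _) ^ (1 / 8 : ℝ) - prof (1 / 8) (958 / 25) _)
    rw [hp1]
    have h3 : (σ ^ 16) ^ (1 / 8 : ℝ) = σ ^ 2 := by
      have h4 : σ ^ 16 = (σ ^ 2) ^ 8 := by ring
      rw [h4, pow8_rpow (by positivity)]
    rw [h3]
    exact h1
  · show 53 / 250 * (y - prof (1 / 8) (958 / 25) _) < prof' (1 / 8) (958 / 25) _
    rw [hp2, hp3]
    exact h2

theorem sum_i : (Real.arcsin (3 / 4 * (77 / 100) ^ 7) + Real.arcsin (3 / 4 * (93 / 100) ^ 7)) *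
    √(33966 / 889) < Real.arcsin (3 / 5) * √(958 / 25) := by
  have hpi := Real.pi_gt_three
  set A := Real.arcsin (3 / 4 * (77 / 100) ^ 7) with hA
  set B := Real.arcsin (3 / 4 * (93 / 100) ^ 7) with hB
  have hA0 : 0 ≤ A := Real.arcsin_nonneg.2 (by norm_num)
  have hB0 : 0 ≤ B := Real.arcsin_nonneg.2 (by norm_num)
  have hA1 : A ≤ Real.pi / 6 := by
    rw [hA, Real.arcsin_le_iff_le_sin ⟨by norm_num, by norm_num⟩ ⟨by linarith, by linarith⟩,
      Real.sin_pi_div_six]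
    norm_num
  have hB1 : B ≤ Real.pi / 6 := by
    rw [hB, Real.arcsin_le_iff_le_sin ⟨by norm_num, by norm_num⟩ ⟨by linarith, by linarith⟩,
      Real.sin_pi_div_six]
    norm_num
  have h1 : A + B < Real.arcsin (3 / 5) := by
    rw [Real.lt_arcsin_iff_sin_lt ⟨by linarith, by linarith⟩ ⟨by norm_num, by norm_num⟩,
      Real.sin_add]
    have hsA : Real.sin A = 3 / 4 * (77 / 100) ^ 7 := Real.sin_arcsin (by norm_num) (by norm_num)
    have hsB : Real.sin B = 3 / 4 * (93 / 100) ^ 7 := Real.sin_arcsin (by norm_num) (by norm_num)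
    rw [hsA, hsB]
    have hcA := Real.cos_le_one A
    have hcB := Real.cos_le_one B
    nlinarith
  have h2 := sqrtL0_pos
  have h3 : √(33966 / 889 : ℝ) ≤ √(958 / 25) := Real.sqrt_le_sqrt (by norm_num)
  have h4 := le_arcsin
  calc (A + B) * √(33966 / 889) < Real.arcsin (3 / 5) * √(33966 / 889) :=
        mul_lt_mul_of_pos_right h1 h2
    _ ≤ _ := mul_le_mul_of_nonneg_left h3 (by linarith)

theorem sum_o : (Real.arcsin (3 / 4 * (1 / 4) ^ 7) + Real.arcsin (3 / 5)) *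
    √(33966 / 889) < Real.arcsin (3 / 5) * √(958 / 25) := by
  have hpi := Real.pi_gt_three
  have hpi2 := Real.pi_lt_d2
  set A := Real.arcsin (3 / 4 * (1 / 4) ^ 7) with hA
  have hA0 : 0 ≤ A := Real.arcsin_nonneg.2 (by norm_num)
  have hA1 : A ≤ Real.pi / 2 := Real.arcsin_le_pi_div_two _
  have h1 := Real.mul_le_sin hA0 hA1
  have hsA : Real.sin A = 3 / 4 * (1 / 4) ^ 7 := Real.sin_arcsin (by norm_num) (by norm_num)
  rw [hsA] at h1
  have h2 : A ≤ 1 / 10000 := by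
    have h3 : 2 / Real.pi * A * Real.pi = 2 * A := by field_simp
    have h4 : 2 / Real.pi * A * Real.pi ≤ 3 / 4 * (1 / 4) ^ 7 * Real.pi :=
      mul_le_mul_of_nonneg_right h1 (by linarith)
    rw [h3] at h4
    norm_num at h4 ⊢
    linarith
  have h5 := sqrtL0_pos
  have h6 := sqrt01
  have h7 := le_arcsin
  have h8 : Real.arcsin (3 / 5) * (1001 / 1000 * √(33966 / 889)) ≤
      Real.arcsin (3 / 5) * √(958 / 25) := mul_le_mul_of_nonneg_left h6 (by linarith)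
  refine lt_of_lt_of_le ?_ h8
  have h9 : A + Real.arcsin (3 / 5) < Real.arcsin (3 / 5) * (1001 / 1000) := by linarith
  calc (A + Real.arcsin (3 / 5)) * √(33966 / 889) <
      (Real.arcsin (3 / 5) * (1001 / 1000)) * √(33966 / 889) := mul_lt_mul_of_pos_right h9 h5
    _ = _ := by ring

/-- the first kind of dead pairs -/
theorem dead_i {x y : ℝ} (hx : x < 58 / 100) (hy : y < 16) : P0.Dead (958 / 25) x y := by
  refine dead_of (σ := 77 / 100) (σ' := 93 / 100) (by linarith) (by norm_num) (by norm_num)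
    (by norm_num) (by norm_num) sum_i ?_ ?_
  · norm_num
    linarith
  · have h1 : (89 / 100 : ℝ) ≤ √(1 - (3 / 4 * (93 / 100) ^ 7) ^ 2) := by
      refine Real.le_sqrt_of_sq_le ?_
      norm_num
    have h2 := sqrtL1_ge
    have h3 : (619 / 100 : ℝ) * (93 / 100) ^ 16 * (89 / 100 / (3 / 4 * (93 / 100) ^ 7)) ≤
        √(958 / 25) * (93 / 100) ^ 16 *
          (√(1 - (3 / 4 * (93 / 100) ^ 7) ^ 2) / (3 / 4 * (93 / 100) ^ 7)) := by
      refine mul_le_mul (mul_le_mul_of_nonneg_right h2 (by positivity)) ?_ (by positivity)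
        (by positivity)
      exact div_le_div_of_nonneg_right h1 (by positivity)
    refine lt_of_lt_of_le ?_ h3
    have h4 : (53 / 250 : ℝ) * (y - (93 / 100) ^ 16) < 53 / 250 * 16 := by
      have : (0 : ℝ) < (93 / 100) ^ 16 := by positivity
      linarith
    refine h4.trans ?_
    norm_num

/-- the number `(4/5)^{1/7}` -/
theorem exists_sig : ∃ σ : ℝ, 0 < σ ∧ σ < 1 ∧ σ ^ 7 = 4 / 5 := by
  refine ⟨(4 / 5 : ℝ) ^ ((7 : ℕ) : ℝ)⁻¹, by positivity, ?_, ?_⟩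
  · exact Real.rpow_lt_one (by norm_num) (by norm_num) (by norm_num)
  · exact Real.rpow_inv_natCast_pow (by norm_num) (by norm_num)

theorem sig_sq {σ : ℝ} (h0 : 0 < σ) (h : σ ^ 7 = 4 / 5) :
    σ ^ 16 = 16 / 25 * σ ^ 2 ∧ 9382 / 10000 ≤ σ ^ 2 ∧ σ ^ 2 ≤ 9383 / 10000 := by
  have h1 : (σ ^ 2) ^ 7 = 16 / 25 := by
    have : (σ ^ 2) ^ 7 = (σ ^ 7) ^ 2 := by ring
    rw [this, h]; norm_num
  refine ⟨?_, ?_, ?_⟩
  · have : σ ^ 16 = (σ ^ 7) ^ 2 * σ ^ 2 := by ring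
    rw [this, h]; norm_num
  · by_contra hn
    push Not at hn
    have h2 := pow_lt_pow_left₀ hn (by positivity) (n := 7) (by norm_num)
    rw [h1] at h2
    norm_num at h2
  · by_contra hn
    push Not at hn
    have h2 := pow_lt_pow_left₀ hn (by norm_num) (n := 7) (by norm_num)
    rw [h1] at h2
    norm_num at h2

theorem cot_sig {σ : ℝ} (h : σ ^ 7 = 4 / 5) :
    √(1 - (3 / 4 * σ ^ 7) ^ 2) / (3 / 4 * σ ^ 7) = 4 / 3 := by
  rw [h]
  have h1 : (1 - (3 / 4 * (4 / 5)) ^ 2 : ℝ) = (4 / 5) ^ 2 := by norm_num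
  rw [h1, Real.sqrt_sq (by norm_num)]
  norm_num

/-- the second kind of dead pairs -/
theorem dead_o {x y : ℝ} (hx : x < 6 / 100) (hy : y ≤ 2395 / 100) : P0.Dead (958 / 25) x y := by
  obtain ⟨σ, hσ0, hσ1, hσ⟩ := exists_sig
  obtain ⟨h16, h2a, h2b⟩ := sig_sq hσ0 hσ
  refine dead_of (σ := 1 / 4) (σ' := σ) (by linarith) (by norm_num) (by norm_num)
    hσ0 hσ1 ?_ ?_ ?_
  · have h1 : (3 / 4 * σ ^ 7 : ℝ) = 3 / 5 := by rw [hσ]; norm_num
    rw [h1]
    exact sum_o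
  · norm_num
    linarith
  · rw [cot_sig hσ, h16]
    have h1 := sqrtL1_ge
    have h3 : (619 / 100 : ℝ) * (16 / 25 * (9382 / 10000)) * (4 / 3) ≤
        √(958 / 25) * (16 / 25 * σ ^ 2) * (4 / 3) := by
      refine mul_le_mul_of_nonneg_right ?_ (by norm_num)
      refine mul_le_mul h1 (by linarith) (by positivity) (by positivity)
    refine lt_of_lt_of_le ?_ h3
    linarith

/-! ### The powers -/

theorem pow_lt_of {X c b : ℝ} {n : ℕ} (hn : n ≠ 0) (hc : 0 ≤ c) (h : X ^ n ≤ b) (hb : b < c ^ n) :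
    X < c := by
  by_contra hn'
  push Not at hn'
  have h1 := pow_le_pow_left₀ hc hn' n
  linarith

/-! ### Net.N1 -/

theorem N1 (x y : ℝ) (hx : 0 ≤ x) (hy : 0 ≤ y) (h : P0.NetSol P0.L1 x y) :
    (x = 0 ∧ y = 0) ∨ (x = 1 ∧ y = 1) ∨ P0.Dead P0.L1 x y := by
  obtain ⟨X, hX0, rfl⟩ : ∃ X : ℝ, 0 ≤ X ∧ x = X ^ 8 :=
    ⟨x ^ (1 / 8 : ℝ), by positivity, (rpow_pow8 hx).symm⟩
  obtain ⟨Y, hY0, rfl⟩ : ∃ Y : ℝ, 0 ≤ Y ∧ y = Y ^ 8 :=
    ⟨y ^ (1 / 8 : ℝ), by positivity, (rpow_pow8 hy).symm⟩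
  have h1 : X ^ 8 - Y ^ 8 = 958 / 25 * (35 / 36) * (X ^ 8 - X) := by
    have := h.1
    change X ^ 8 - Y ^ 8 = 958 / 25 * (35 / 36) * gg (1 / 8) (X ^ 8) at this
    rwa [gg_pow hX0] at this
  have h2 : Y ^ 8 - X ^ 8 = 958 / 25 * (1 / 36) * (Y ^ 8 - Y) := by
    have := h.2
    change Y ^ 8 - X ^ 8 = 958 / 25 * (1 / 36) * gg (1 / 8) (Y ^ 8) at this
    rwa [gg_pow hY0] at this
  rcases hX0.eq_or_lt with hX | hX
  · left
    rw [← hX] at h1 ⊢
    have h3 : Y ^ 8 = 0 := by linarith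
    exact ⟨by norm_num, h3⟩
  right
  obtain ⟨hR, hX7⟩ := ratio (by norm_num) hX h1 h2
  obtain ⟨T, hT⟩ : ∃ T, T = Y / X := ⟨_, rfl⟩
  have hT0 : 0 ≤ T := by rw [hT]; positivity
  have hYT : Y = T * X := by rw [hT]; field_simp
  rw [← hT] at hR hX7
  subst hYT
  clear hT h1 h2 h hx hy hY0 hX0
  obtain ⟨Ti, To, hi1, hi2, ho1, ho2, hi0, ho0, s1, s2, s3, s4⟩ := shape (958 / 25) (u := 12 / 10)
    (B := 3) (by norm_num) (by norm_num [Ts]) (by norm_num [RR]) (by norm_num [RR, Ts])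
    (by norm_num [Ts]) (by norm_num [RR])
  have hTs : Ts (958 / 25) = 245 * (958 / 25 - 36) / 324 := rfl
  norm_num at hTs
  have b1 : 149 / 100 < Ti := by
    by_contra hn
    push Not at hn
    have h3 : RR (958 / 25) (149 / 100) < 0 := by norm_num [RR]
    rcases hn.eq_or_lt with h4 | h4
    · rw [← h4, hi0] at h3; exact lt_irrefl _ h3
    · exact absurd (s3 _ h4 (by linarith)) (not_lt.2 h3.le)
  have b2 : Ti < 151 / 100 := by
    by_contra hn
    push Not at hn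
    have h3 : 0 < RR (958 / 25) (151 / 100) := by norm_num [RR]
    rcases hn.eq_or_lt with h4 | h4
    · rw [h4, hi0] at h3; exact lt_irrefl _ h3
    · exact absurd (s2 _ (by norm_num) h4) (not_lt.2 h3.le)
  have b3 : 216 / 100 < To := by
    by_contra hn
    push Not at hn
    have h3 : 0 < RR (958 / 25) (216 / 100) := by norm_num [RR]
    rcases hn.eq_or_lt with h4 | h4
    · rw [← h4, ho0] at h3; exact lt_irrefl _ h3
    · exact absurd (s4 _ h4) (not_lt.2 h3.le)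
  have b4 : To < 217 / 100 := by
    by_contra hn
    push Not at hn
    have h3 : RR (958 / 25) (217 / 100) < 0 := by norm_num [RR]
    rcases hn.eq_or_lt with h4 | h4
    · rw [h4, ho0] at h3; exact lt_irrefl _ h3
    · exact absurd (s3 _ (by linarith) h4) (not_lt.2 h3.le)
  have hX7' : X ^ 7 * (3353 / 90 + T ^ 8 - 1) = 3353 / 90 := by
    have : (958 / 25 * (35 / 36) : ℝ) = 3353 / 90 := by norm_num
    rwa [this] at hX7
  have hT8 : (0 : ℝ) ≤ T ^ 8 := by positivity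
  rcases lt_trichotomy T 1 with hT | hT | hT
  · exact absurd (s1 T hT0 hT) (by rw [hR]; exact lt_irrefl _)
  · left
    subst hT
    have h3 : X ^ 7 = 1 := by
      have : X ^ 7 * (3353 / 90) = 1 * (3353 / 90) := by linarith
      exact mul_right_cancel₀ (by norm_num) this
    have h4 : X = 1 := by
      have h5 : X ^ 7 = 1 ^ 7 := by rw [h3]; norm_num
      exact (pow_left_inj₀ hX.le (by norm_num) (by norm_num)).1 h5
    rw [h4]
    norm_num
  right
  rcases lt_trichotomy T Ti with hT1 | hT1 | hT1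
  · exact absurd (s2 T hT hT1) (by rw [hR]; exact lt_irrefl _)
  · -- the inner root
    rw [← hT1] at b1 b2
    have h8a : (149 / 100 : ℝ) ^ 8 ≤ T ^ 8 := pow_le_pow_left₀ (by norm_num) b1.le 8
    have h8b : T ^ 8 ≤ (151 / 100 : ℝ) ^ 8 := pow_le_pow_left₀ hT0 b2.le 8
    have hX0 : 0 < X ^ 7 := by positivity
    have h7 : X ^ 7 ≤ 6154 / 10000 := by
      by_contra hn
      push Not at hn
      norm_num at h8a
      nlinarith
    have hXl : X < 94 / 100 := pow_lt_of (n := 7) (by norm_num) (by norm_num) h7 (by norm_num)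
    have hx8 : X ^ 8 < 58 / 100 := by
      have : X ^ 8 = X * X ^ 7 := by ring
      rw [this]
      nlinarith
    refine dead_i hx8 ?_
    have : (T * X) ^ 8 = T ^ 8 * X ^ 8 := by ring
    rw [this]
    norm_num at h8b
    have : 0 < X ^ 8 := by positivity
    nlinarith
  rcases lt_trichotomy T To with hT2 | hT2 | hT2
  · exact absurd (s3 T hT1 hT2) (by rw [hR]; exact lt_irrefl _)
  · -- the outer root
    rw [← hT2] at b3 b4
    have h8a : (216 / 100 : ℝ) ^ 8 ≤ T ^ 8 := pow_le_pow_left₀ (by norm_num) b3.le 8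
    have h7b : T ^ 7 ≤ (217 / 100 : ℝ) ^ 7 := pow_le_pow_left₀ hT0 b4.le 7
    have hX0 : 0 < X ^ 7 := by positivity
    have h7 : X ^ 7 ≤ 731 / 10000 := by
      by_contra hn
      push Not at hn
      norm_num at h8a
      nlinarith
    have hXl : X < 70 / 100 := pow_lt_of (n := 7) (by norm_num) (by norm_num) h7 (by norm_num)
    have hx8 : X ^ 8 < 6 / 100 := by
      have : X ^ 8 = X * X ^ 7 := by ring
      rw [this]
      nlinarith
    refine dead_o hx8 ?_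
    have hY7 : (T * X) ^ 7 ≤ 161 / 10 := by
      have e1 : (T * X) ^ 7 * (3353 / 90 + T ^ 8 - 1) = T ^ 7 * (3353 / 90) := by
        have : (T * X) ^ 7 * (3353 / 90 + T ^ 8 - 1) =
          T ^ 7 * (X ^ 7 * (3353 / 90 + T ^ 8 - 1)) := by ring
        rw [this, hX7']
      have e2 : T ^ 7 * (3353 / 90) ≤ 161 / 10 * (3353 / 90 + T ^ 8 - 1) := by
        have e3 : T ^ 7 * (3353 / 90 - 161 / 10 * T) ≤ 161 / 10 * (3353 / 90 - 1) := by
          have e4 : 3353 / 90 - 161 / 10 * T ≤ 3353 / 90 - 161 / 10 * (216 / 100) := by linarith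
          have e5 : 0 ≤ T ^ 7 := by positivity
          calc T ^ 7 * (3353 / 90 - 161 / 10 * T)
              ≤ T ^ 7 * (3353 / 90 - 161 / 10 * (216 / 100)) := mul_le_mul_of_nonneg_left e4 e5
            _ ≤ (217 / 100) ^ 7 * (3353 / 90 - 161 / 10 * (216 / 100)) :=
                mul_le_mul_of_nonneg_right h7b (by norm_num)
            _ ≤ _ := by norm_num
        have e6 : T ^ 8 = T ^ 7 * T := by ring
        rw [e6]
        linarith
      by_contra hn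
      push Not at hn
      have e7 : 0 < 3353 / 90 + T ^ 8 - 1 := by linarith
      nlinarith
    have hYl : T * X < 14875 / 10000 :=
      pow_lt_of (n := 7) (by norm_num) (by norm_num) hY7 (by norm_num)
    have hY0 : 0 ≤ T * X := by positivity
    have : (T * X) ^ 8 = T * X * (T * X) ^ 7 := by ring
    rw [this]
    have h9 : T * X * (T * X) ^ 7 ≤ 14875 / 10000 * (161 / 10) :=
      mul_le_mul hYl.le hY7 (by positivity) (by norm_num)
    refine h9.trans ?_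
    norm_num
  · exact absurd (s4 T hT2) (by rw [hR]; exact lt_irrefl _)

/-! ### Net.N2 -/

/-- the signs at `L0` -/
theorem shape0 : ∃ Ti, Ti < 165 / 100 ∧
    (∀ T, Ti < T → T < 2 → 0 < RR (33966 / 889) T) ∧ (∀ T, 2 < T → RR (33966 / 889) T < 0) := by
  obtain ⟨Ti, To, hi1, hi2, ho1, ho2, hi0, ho0, s1, s2, s3, s4⟩ := shape (33966 / 889)
    (u := 12 / 10) (B := 3) (by norm_num) (by norm_num [Ts]) (by norm_num [RR])
    (by norm_num [RR, Ts]) (by norm_num [Ts]) (by norm_num [RR])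
  have hTs : Ts (33966 / 889) = 245 * (33966 / 889 - 36) / 324 := rfl
  norm_num at hTs
  have h2 : RR (33966 / 889) 2 = 0 := by norm_num [RR]
  have hTo : To = 2 := by
    rcases lt_trichotomy To 2 with h | h | h
    · exact absurd (s4 2 h) (by rw [h2]; exact lt_irrefl _)
    · exact h
    · exact absurd (s3 2 (by linarith) h) (by rw [h2]; exact lt_irrefl _)
  rw [hTo] at s3 s4
  refine ⟨Ti, ?_, s3, s4⟩
  by_contra hn
  push Not at hn
  have h3 : 0 < RR (33966 / 889) (165 / 100) := by norm_num [RR]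
  rcases hn.eq_or_lt with h4 | h4
  · rw [h4, hi0] at h3; exact lt_irrefl _ h3
  · exact absurd (s2 _ (by norm_num) h4) (not_lt.2 h3.le)

theorem psi_eq {T : ℝ} (hT : 0 ≤ T) : P0.psi (T ^ 8) = Psi (33966 / 889) T := by
  have h1 : (T ^ 8 : ℝ) ^ (1 / 8 + 1 : ℝ) = T ^ 9 := by
    rcases hT.eq_or_lt with h | h
    · rw [← h]; norm_num
    · rw [← Real.rpow_natCast T 8, ← Real.rpow_mul hT, ← Real.rpow_natCast T 9]
      norm_num
  show (33966 / 889 * (35 / 36 + 1 / 36 * (T ^ 8) ^ 2) - (1 - T ^ 8) ^ 2) /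
    (35 / 36 + 1 / 36 * (T ^ 8) ^ (1 / 8 + 1 : ℝ)) ^ (2 / (1 / 8 + 1) : ℝ) = _
  rw [h1]
  have h2 : (2 / (1 / 8 + 1) : ℝ) = 16 / 9 := by norm_num
  rw [h2]
  unfold Psi NN DD
  rw [Real.rpow_neg (by positivity), ← div_eq_mul_inv]
  congr 1
  · ring
  · congr 1
    ring

theorem root8 {a : ℝ} (ha : 0 ≤ a) : ∃ T : ℝ, 0 ≤ T ∧ T ^ 8 = a :=
  ⟨a ^ (1 / 8 : ℝ), by positivity, rpow_pow8 ha⟩

theorem N2a : 0 < P0.psi P0.t0 ∧ ∀ t ∈ Icc P0.t1 P0.t2, t ≠ P0.t0 → P0.psi t < P0.psi P0.t0 := by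
  obtain ⟨Ti, hTi, h1, h2⟩ := shape0
  have e0 : P0.t0 = (2 : ℝ) ^ 8 := by show (256 : ℝ) = 2 ^ 8; norm_num
  rw [e0, psi_eq (by norm_num)]
  constructor
  · unfold Psi
    refine mul_pos ?_ (Real.rpow_pos_of_pos (DD_pos (by norm_num)) _)
    norm_num [NN]
  · rintro t ⟨ht1, ht2⟩ hne
    change (200 : ℝ) ≤ t at ht1
    obtain ⟨T, hT0, rfl⟩ := root8 (show 0 ≤ t by linarith)
    rw [psi_eq hT0]
    have hT1 : 17 / 10 ≤ T := by
      by_contra hn
      push Not at hn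
      have := pow_lt_pow_left₀ hn hT0 (n := 8) (by norm_num)
      norm_num at this
      linarith
    have hT2 : T ≠ 2 := by
      rintro rfl
      exact hne rfl
    rcases lt_or_gt_of_ne hT2 with h | h
    · exact Psi_mono (33966 / 889) (a := 17 / 10) (b := 2) (by norm_num)
        (fun T h3 h4 => h1 T (by linarith) h4) ⟨hT1, h.le⟩ ⟨by norm_num, le_rfl⟩ h
    · refine Psi_anti (33966 / 889) (a := 2) (s := Ici 2) (convex_Ici _) (by norm_num)
        (fun x hx => hx) ?_ (Set.mem_Ici.2 le_rfl) (Set.mem_Ici.2 h.le) h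
      intro T hT
      rw [interior_Ici] at hT
      exact h2 T hT

theorem N2b (x y : ℝ) (hx : 0 ≤ x) (h1 : P0.t1 * x ≤ y) (h2 : y ≤ P0.t2 * x)
    (h : P0.NetSol P0.L0 x y) : (x = 0 ∧ y = 0) ∨ P0.Alive P0.L0 x y := by
  change 200 * x ≤ y at h1
  change y ≤ 320 * x at h2
  have hy : 0 ≤ y := by linarith
  obtain ⟨X, hX0, rfl⟩ := root8 hx
  obtain ⟨Y, hY0, rfl⟩ := root8 hy
  have e1 : X ^ 8 - Y ^ 8 = 33966 / 889 * (35 / 36) * (X ^ 8 - X) := by
    have := h.1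
    change X ^ 8 - Y ^ 8 = 33966 / 889 * (35 / 36) * gg (1 / 8) (X ^ 8) at this
    rwa [gg_pow hX0] at this
  have e2 : Y ^ 8 - X ^ 8 = 33966 / 889 * (1 / 36) * (Y ^ 8 - Y) := by
    have := h.2
    change Y ^ 8 - X ^ 8 = 33966 / 889 * (1 / 36) * gg (1 / 8) (Y ^ 8) at this
    rwa [gg_pow hY0] at this
  rcases hX0.eq_or_lt with hX | hX
  · left
    rw [← hX] at h2 ⊢
    have h3 : Y ^ 8 ≤ 0 := by simpa using h2
    exact ⟨by norm_num, le_antisymm h3 (by positivity)⟩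
  right
  obtain ⟨hR, hX7⟩ := ratio (by norm_num) hX e1 e2
  obtain ⟨T, hT⟩ : ∃ T, T = Y / X := ⟨_, rfl⟩
  have hT0 : 0 ≤ T := by rw [hT]; positivity
  have hYT : Y = T * X := by rw [hT]; field_simp
  rw [← hT] at hR hX7
  subst hYT
  clear hT e1 e2 h hx hy hY0 hX0
  have hX8 : 0 < X ^ 8 := by positivity
  have hT8 : 200 ≤ T ^ 8 := by
    have h3 : (T * X) ^ 8 = T ^ 8 * X ^ 8 := by ring
    rw [h3] at h1
    exact le_of_mul_le_mul_right h1 hX8
  have hT1 : 17 / 10 ≤ T := by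
    by_contra hn
    push Not at hn
    have := pow_lt_pow_left₀ hn hT0 (n := 8) (by norm_num)
    norm_num at this
    linarith
  obtain ⟨Ti, hTi, s3, s4⟩ := shape0
  have hT2 : T = 2 := by
    rcases lt_trichotomy T 2 with h3 | h3 | h3
    · exact absurd (s3 T (by linarith) h3) (by rw [hR]; exact lt_irrefl _)
    · exact h3
    · exact absurd (s4 T h3) (by rw [hR]; exact lt_irrefl _)
  subst hT2
  have hX7' : X ^ 7 = 37 / 291 := by
    norm_num at hX7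
    linarith
  have hXl : 7447 / 10000 < X := by
    by_contra hn
    push Not at hn
    have h3 := pow_le_pow_left₀ hX.le hn 7
    rw [hX7'] at h3
    norm_num at h3
  refine ⟨hX8, ?_⟩
  obtain ⟨σ, hσ0, hσ1, hσ⟩ := exists_sig
  obtain ⟨h16, h2a, h2b⟩ := sig_sq hσ0 hσ
  have hτ : P0.τ = 16 * Real.arcsin (3 / 4 * σ ^ 7) / (7 * √(33966 / 889)) := by
    show tau0 = _
    unfold tau0
    rw [hσ]
    norm_num
  have hL : (0 : ℝ) < 33966 / 889 := by norm_num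
  have hp2 := prof_eq hL hσ0 hσ1.le
  have hp3 := prof'_eq hL hσ0 hσ1.le
  show prof' (1 / 8) (33966 / 889) P0.τ <
    53 / 250 * ((2 * X) ^ 8 - prof (1 / 8) (33966 / 889) P0.τ)
  rw [hτ, hp2, hp3, cot_sig hσ, h16]
  have h3 := sqrtL0_le
  have h4 := sqrtL0_pos
  have h5 : √(33966 / 889) * (16 / 25 * σ ^ 2) * (4 / 3) ≤
      6182 / 1000 * (16 / 25 * (9383 / 10000)) * (4 / 3) := by
    refine mul_le_mul_of_nonneg_right ?_ (by norm_num)
    refine mul_le_mul h3 (by linarith) (by positivity) (by norm_num)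
  refine lt_of_le_of_lt h5 ?_
  have h6 : (2 * X) ^ 8 = 256 * (X ^ 7 * X) := by ring
  rw [h6, hX7']
  linarith

/-! ### Net.N3 -/

theorem shape2 : ∃ Ti To, 12 / 10 < Ti ∧ Ti < 17695 / 10000 ∧ 21910 / 10000 < To ∧ To < 21917 / 10000 ∧
    RR (1917 / 50) To = 0 ∧
    (∀ T, 0 ≤ T → T < 1 → 0 < RR (1917 / 50) T) ∧ (∀ T, 1 < T → T < Ti → RR (1917 / 50) T < 0) ∧
    (∀ T, Ti < T → T < To → 0 < RR (1917 / 50) T) ∧ (∀ T, To < T → RR (1917 / 50) T < 0) := by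
  obtain ⟨Ti, To, hi1, hi2, ho1, ho2, hi0, ho0, s1, s2, s3, s4⟩ := shape (1917 / 50)
    (u := 12 / 10) (B := 3) (by norm_num) (by norm_num [Ts]) (by norm_num [RR])
    (by norm_num [RR, Ts]) (by norm_num [Ts]) (by norm_num [RR])
  have hTs : Ts (1917 / 50) = 245 * (1917 / 50 - 36) / 324 := rfl
  norm_num at hTs
  refine ⟨Ti, To, hi1, by linarith, ?_, ?_, ho0, s1, s2, s3, s4⟩
  · by_contra hn
    push Not at hn
    have h3 : 0 < RR (1917 / 50) (21910 / 10000) := by norm_num [RR]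
    rcases hn.eq_or_lt with h4 | h4
    · rw [← h4, ho0] at h3; exact lt_irrefl _ h3
    · exact absurd (s4 _ h4) (not_lt.2 h3.le)
  · by_contra hn
    push Not at hn
    have h3 : RR (1917 / 50) (21917 / 10000) < 0 := by norm_num [RR]
    rcases hn.eq_or_lt with h4 | h4
    · rw [h4, ho0] at h3; exact lt_irrefl _ h3
    · exact absurd (s3 _ (by linarith) h4) (not_lt.2 h3.le)

/-- the value at the outer root -/
theorem Psi_outer {T : ℝ} (h1 : 21910 / 10000 < T) (h2 : T < 21917 / 10000)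
    (h : RR (1917 / 50) T = 0) : Psi (1917 / 50) T < 1917 / 50 := by
  have hT0 : 0 < T := by linarith
  have hD := DD_pos hT0.le
  rw [Psi_lt_iff hT0.le, NN_root hT0.ne' (by norm_num) h, mul_assoc]
  refine mul_lt_mul_of_pos_left ?_ (by norm_num)
  have e1 : DD T ^ (16 / 9 : ℝ) = DD T ^ (7 / 9 : ℝ) * DD T := by
    rw [← Real.rpow_add_one hD.ne']
    norm_num
  rw [e1]
  refine mul_lt_mul_of_pos_right ?_ hD
  by_contra hn
  push Not at hn
  have h3 := pow_le_pow_left₀ (by positivity) hn 9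
  have h4 : (DD T ^ (7 / 9 : ℝ)) ^ 9 = DD T ^ 7 := by
    rw [← Real.rpow_natCast _ 9, ← Real.rpow_mul hD.le, ← Real.rpow_natCast _ 7]
    norm_num
  rw [h4] at h3
  have h5 : 35 / 36 + (21910 / 10000) ^ 9 / 36 ≤ DD T := by
    unfold DD
    have := pow_le_pow_left₀ (by norm_num) h1.le 9
    linarith
  have h6 := pow_le_pow_left₀ (by positivity) h5 7
  have h7 : 1 + (T ^ 8 - 1) / (1917 / 50 * (35 / 36)) ≤
      1 + ((21917 / 10000) ^ 8 - 1) / (1917 / 50 * (35 / 36)) := by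
    have := pow_le_pow_left₀ hT0.le h2.le 8
    have h8 := div_le_div_of_nonneg_right (sub_le_sub_right this 1)
      (show (0 : ℝ) ≤ 1917 / 50 * (35 / 36) by norm_num)
    linarith
  have h8 : 0 ≤ 1 + (T ^ 8 - 1) / (1917 / 50 * (35 / 36)) := by
    have h9 : (1 : ℝ) ≤ T ^ 8 := one_le_pow₀ (by linarith)
    have : 0 ≤ (T ^ 8 - 1) / (1917 / 50 * (35 / 36)) := div_nonneg (by linarith) (by norm_num)
    linarith
  have h9 := pow_le_pow_left₀ h8 h7 9
  have h10 := (h6.trans h3).trans h9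
  norm_num at h10

theorem Psi_lt {T : ℝ} (hT0 : 0 ≤ T) (hT : T ≠ 1) : Psi (1917 / 50) T < 1917 / 50 := by
  obtain ⟨Ti, To, hi1, hi2, ho1, ho2, ho0, s1, s2, s3, s4⟩ := shape2
  rcases lt_or_gt_of_ne hT with h | h
  · have := Psi_mono (1917 / 50) (a := 0) (b := 1) le_rfl (fun T h1 h2 => s1 T h1.le h2)
      ⟨hT0, h.le⟩ ⟨by norm_num, le_rfl⟩ h
    rwa [Psi_one] at this
  rcases le_or_gt T Ti with h1 | h1
  · have := Psi_anti (1917 / 50) (a := 1) (s := Icc 1 Ti) (convex_Icc _ _) (by norm_num)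
      (fun x hx => hx.1) (by
        intro T hT
        rw [interior_Icc] at hT
        exact s2 T hT.1 hT.2) ⟨le_rfl, by linarith⟩ ⟨h.le, h1⟩ h
    rwa [Psi_one] at this
  have hO := Psi_outer ho1 ho2 ho0
  refine lt_of_le_of_lt ?_ hO
  rcases le_or_gt T To with h2 | h2
  · exact (Psi_mono (1917 / 50) (a := Ti) (b := To) (by linarith) s3).monotoneOn
      ⟨h1.le, h2⟩ ⟨by linarith, le_rfl⟩ h2
  · refine ((Psi_anti (1917 / 50) (a := To) (s := Ici To) (convex_Ici _) (by linarith)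
      (fun x hx => hx) ?_) (Set.mem_Ici.2 le_rfl) (Set.mem_Ici.2 h2.le) h2).le
    intro T hT
    rw [interior_Ici] at hT
    exact s4 T hT

theorem rpow98 {X : ℝ} (hX : 0 ≤ X) : (X ^ 8 : ℝ) ^ (1 / 8 + 1 : ℝ) = X ^ 9 := by
  rcases hX.eq_or_lt with h | h
  · rw [← h]; norm_num
  · rw [← Real.rpow_natCast X 8, ← Real.rpow_mul hX, ← Real.rpow_natCast X 9]
    norm_num

theorem rpow916 {X : ℝ} (hX : 0 ≤ X) : (X ^ 9 : ℝ) ^ (16 / 9 : ℝ) = X ^ 16 := by
  rw [← Real.rpow_natCast X 9, ← Real.rpow_mul hX, ← Real.rpow_natCast X 16]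
  norm_num

theorem m_pow : (1 / 36 - 1 / (1917 / 50) : ℝ) < (1 / 36 : ℝ) ^ (16 / 9 : ℝ) := by
  by_contra hn
  push Not at hn
  have h3 := pow_le_pow_left₀ (by positivity) hn 9
  have h4 : ((1 / 36 : ℝ) ^ (16 / 9 : ℝ)) ^ 9 = (1 / 36 : ℝ) ^ 16 := by
    rw [← Real.rpow_natCast _ 9, ← Real.rpow_mul (by norm_num), ← Real.rpow_natCast _ 16]
    norm_num
  rw [h4] at h3
  norm_num at h3

theorem N3 (x y : ℝ) (hx : 0 ≤ x) (hy : 0 ≤ y) (hne : x ≠ y) :
    P0.L2 * (P0.M * x ^ 2 + P0.m * y ^ 2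
      - (P0.M * x ^ (P0.p + 1) + P0.m * y ^ (P0.p + 1)) ^ (2 / (P0.p + 1))) < (x - y) ^ 2 := by
  show 1917 / 50 * (35 / 36 * x ^ 2 + 1 / 36 * y ^ 2
      - (35 / 36 * x ^ (1 / 8 + 1 : ℝ) + 1 / 36 * y ^ (1 / 8 + 1 : ℝ)) ^ (2 / (1 / 8 + 1) : ℝ)) <
        (x - y) ^ 2
  have e169 : (2 / (1 / 8 + 1) : ℝ) = 16 / 9 := by norm_num
  rw [e169]
  obtain ⟨X, hX0, rfl⟩ := root8 hx
  obtain ⟨Y, hY0, rfl⟩ := root8 hy
  rw [rpow98 hX0, rpow98 hY0]
  rcases hX0.eq_or_lt with hX | hX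
  · have hY : 0 < Y := by
      rcases hY0.eq_or_lt with h | h
      · rw [← hX, ← h] at hne
        exact absurd rfl hne
      · exact h
    rw [← hX]
    have h1 : (35 / 36 * (0 : ℝ) ^ 9 + 1 / 36 * Y ^ 9) ^ (16 / 9 : ℝ) =
        (1 / 36 : ℝ) ^ (16 / 9 : ℝ) * Y ^ 16 := by
      have : (35 / 36 * (0 : ℝ) ^ 9 + 1 / 36 * Y ^ 9) = 1 / 36 * Y ^ 9 := by ring
      rw [this, Real.mul_rpow (by norm_num) (by positivity), rpow916 hY0]
    rw [h1]
    have h2 := m_pow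
    have hY16 : 0 < Y ^ 16 := by positivity
    have h3 : 1917 / 50 * (1 / 36 - (1 / 36 : ℝ) ^ (16 / 9 : ℝ)) < 1 := by
      have h4 : 1 / 36 - (1 / 36 : ℝ) ^ (16 / 9 : ℝ) < 1 / (1917 / 50) := by linarith
      have h5 := mul_lt_mul_of_pos_left h4 (show (0 : ℝ) < 1917 / 50 by norm_num)
      rwa [mul_one_div_cancel (by norm_num)] at h5
    have h6 := mul_lt_mul_of_pos_right h3 hY16
    have h7 : 1917 / 50 * (35 / 36 * ((0 : ℝ) ^ 8) ^ 2 + 1 / 36 * (Y ^ 8) ^ 2 -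
        (1 / 36 : ℝ) ^ (16 / 9 : ℝ) * Y ^ 16) =
          1917 / 50 * (1 / 36 - (1 / 36 : ℝ) ^ (16 / 9 : ℝ)) * Y ^ 16 := by ring
    rw [h7]
    refine h6.trans_le (le_of_eq ?_)
    ring
  · obtain ⟨T, hT⟩ : ∃ T, T = Y / X := ⟨_, rfl⟩
    have hT0 : 0 ≤ T := by rw [hT]; positivity
    have hYT : Y = T * X := by rw [hT]; field_simp
    subst hYT
    have hT1 : T ≠ 1 := by
      rintro rfl
      exact hne (by ring)
    have h1 := (Psi_lt_iff hT0).1 (Psi_lt hT0 hT1)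
    have hD := DD_pos hT0
    have h2 : (35 / 36 * X ^ 9 + 1 / 36 * (T * X) ^ 9) ^ (16 / 9 : ℝ) =
        DD T ^ (16 / 9 : ℝ) * X ^ 16 := by
      have : 35 / 36 * X ^ 9 + 1 / 36 * (T * X) ^ 9 = DD T * X ^ 9 := by
        unfold DD; ring
      rw [this, Real.mul_rpow hD.le (by positivity), rpow916 hX.le]
    rw [h2]
    unfold NN at h1
    have hX16 : 0 < X ^ 16 := by positivity
    have h3 := mul_lt_mul_of_pos_right h1 hX16
    have h4 : (X ^ 8 - (T * X) ^ 8) ^ 2 = (T ^ 8 - 1) ^ 2 * X ^ 16 := by ring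
    rw [h4]
    have h5 : 1917 / 50 * (35 / 36 * (X ^ 8) ^ 2 + 1 / 36 * ((T * X) ^ 8) ^ 2 -
        DD T ^ (16 / 9 : ℝ) * X ^ 16) =
          (1917 / 50 * (35 / 36 + T ^ 16 / 36)) * X ^ 16 -
            1917 / 50 * DD T ^ (16 / 9 : ℝ) * X ^ 16 := by ring
    rw [h5]
    linarith

/-- Module D. -/
theorem netExists : NetExists :=
  ⟨P0, rfl, ⟨N1, N2a, N2b, N3⟩⟩

end Pool.Agent.Lib.MP_e46711_an.H35
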