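import Pool.Agent.Lib.MP_e46711_an.H35.Ratio

/-!
# Module D, part 2: the quotient on the two-node network
-/

open Set

namespace Pool.Agent.Lib.MP_e46711_an.H35

/-- numerator -/
noncomputable def NN (L T : ℝ) : ℝ := L * (35 / 36 + T ^ 16 / 36) - (T ^ 8 - 1) ^ 2

/-- denominator -/
noncomputable def DD (T : ℝ) : ℝ := 35 / 36 + T ^ 9 / 36

/-- the quotient as a function of `T = t^{1/8}` -/
noncomputable def Psi (L T : ℝ) : ℝ := NN L T * DD T ^ (-(16 / 9) : ℝ)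

theorem DD_pos {T : ℝ} (hT : 0 ≤ T) : 0 < DD T := by
  unfold DD
  positivity

theorem hasDerivAt_NN (L T : ℝ) :
    HasDerivAt (NN L) (L * (16 * T ^ 15 / 36) - 16 * T ^ 7 * (T ^ 8 - 1)) T := by
  have h : HasDerivAt (fun T : ℝ => L * (35 / 36 + T ^ 16 / 36) - (T ^ 8 - 1) ^ 2)
      (L * ((16 : ℕ) * T ^ (16 - 1) / 36) -
        (2 : ℕ) * (T ^ 8 - 1) ^ (2 - 1) * ((8 : ℕ) * T ^ (8 - 1))) T :=
    ((((hasDerivAt_pow 16 T).div_const 36).const_add (35 / 36)).const_mul L).sub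
      (((hasDerivAt_pow 8 T).sub_const 1).pow 2)
  exact h.congr_deriv (by push_cast; ring)

theorem hasDerivAt_DD (T : ℝ) : HasDerivAt DD (T ^ 8 / 4) T := by
  have h : HasDerivAt (fun T : ℝ => 35 / 36 + T ^ 9 / 36) ((9 : ℕ) * T ^ (9 - 1) / 36) T :=
    ((hasDerivAt_pow 9 T).div_const 36).const_add (35 / 36)
  exact h.congr_deriv (by push_cast; ring)

theorem hasDerivAt_Psi (L : ℝ) {T : ℝ} (hT : 0 ≤ T) :
    HasDerivAt (Psi L) (16 * T ^ 7 * (RR L T / 1296) * DD T ^ (-(25 / 9) : ℝ)) T := by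
  have hD := DD_pos hT
  have h := (hasDerivAt_NN L T).mul
    ((hasDerivAt_DD T).rpow_const (p := (-(16 / 9) : ℝ)) (Or.inl hD.ne'))
  refine h.congr_deriv ?_
  have h1 : DD T ^ (-(16 / 9) : ℝ) = DD T ^ (-(25 / 9) : ℝ) * DD T := by
    rw [← Real.rpow_add_one hD.ne']
    norm_num
  have h2 : DD T ^ ((-(16 / 9) : ℝ) - 1) = DD T ^ (-(25 / 9) : ℝ) := by
    norm_num
  rw [h2, h1]
  generalize DD T ^ (-(25 / 9) : ℝ) = q
  unfold RR NN DD
  ring

theorem Psi_contOn (L : ℝ) {s : Set ℝ} (hs : ∀ x ∈ s, (0 : ℝ) ≤ x) : ContinuousOn (Psi L) s :=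
  fun x hx => (hasDerivAt_Psi L (hs x hx)).continuousAt.continuousWithinAt

theorem Psi_mono (L : ℝ) {a b : ℝ} (ha : 0 ≤ a) (h : ∀ T, a < T → T < b → 0 < RR L T) :
    StrictMonoOn (Psi L) (Icc a b) := by
  refine strictMonoOn_of_deriv_pos (convex_Icc a b)
    (Psi_contOn L fun x hx => ha.trans hx.1) fun x hx => ?_
  rw [interior_Icc] at hx
  have hx0 : 0 < x := lt_of_le_of_lt ha hx.1
  rw [(hasDerivAt_Psi L hx0.le).deriv]
  have h1 := h x hx.1 hx.2
  have h2 := Real.rpow_pos_of_pos (DD_pos hx0.le) (-(25 / 9) : ℝ)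
  positivity

theorem Psi_anti (L : ℝ) {a : ℝ} {s : Set ℝ} (hs : Convex ℝ s) (ha : 0 ≤ a)
    (hsa : ∀ x ∈ s, a ≤ x)
    (h : ∀ T ∈ interior s, RR L T < 0) :
    StrictAntiOn (Psi L) s := by
  refine strictAntiOn_of_deriv_neg hs
    (Psi_contOn L fun x hx => ha.trans (hsa x hx)) fun x hx => ?_
  have hx1 : a ≤ x := hsa x (interior_subset hx)
  have hx0 : 0 ≤ x := ha.trans hx1
  have h1 := h x hx
  have hx2 : x ≠ 0 := by
    rintro rfl
    unfold RR at h1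
    norm_num at h1
  have hx3 : 0 < x := lt_of_le_of_ne hx0 (Ne.symm hx2)
  rw [(hasDerivAt_Psi L hx0).deriv]
  have h2 := Real.rpow_pos_of_pos (DD_pos hx0) (-(25 / 9) : ℝ)
  have h3 : 0 < 16 * x ^ 7 := by positivity
  have h4 : RR L x / 1296 < 0 := by linarith
  have h5 : 16 * x ^ 7 * (RR L x / 1296) < 0 := mul_neg_of_pos_of_neg h3 h4
  exact mul_neg_of_neg_of_pos h5 h2

theorem Psi_one (L : ℝ) : Psi L 1 = L := by
  unfold Psi NN DD
  norm_num

/-- At a root of the ratio polynomial the numerator is simple. -/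
theorem NN_root {L T : ℝ} (hT : T ≠ 0) (hL : L ≠ 0) (h : RR L T = 0) :
    NN L T = L * (1 + (T ^ 8 - 1) / (L * (35 / 36))) * DD T := by
  have h1 : T * (NN L T - L * (1 + (T ^ 8 - 1) / (L * (35 / 36))) * DD T) = 0 := by
    have h2 : L * (1 + (T ^ 8 - 1) / (L * (35 / 36))) = L + (T ^ 8 - 1) * (36 / 35) := by
      field_simp
    rw [h2]
    unfold NN DD
    unfold RR at h
    linear_combination (T ^ 9 / 1260) * h
  rcases mul_eq_zero.1 h1 with h3 | h3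
  · exact absurd h3 hT
  · linarith

/-- `Psi < L` is the inequality to be proved. -/
theorem Psi_lt_iff {L T : ℝ} (hT : 0 ≤ T) : Psi L T < L ↔ NN L T < L * DD T ^ (16 / 9 : ℝ) := by
  have hD := DD_pos hT
  have hp := Real.rpow_pos_of_pos hD (16 / 9 : ℝ)
  unfold Psi
  rw [Real.rpow_neg hD.le, ← div_eq_mul_inv, div_lt_iff₀ hp]

end Pool.Agent.Lib.MP_e46711_an.H35
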