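import Pool.Agent.Lib.MP_e46711_an.DefsC

/-!
# Module D, part 1: the ratio polynomial
-/

open Set

namespace Pool.Agent.Lib.MP_e46711_an.H35

/-- `1296` times the ratio polynomial -/
def RR (L T : ℝ) : ℝ := -36 * T ^ 9 + 35 * (L - 36) * T ^ 8 - (35 * L - 36) * T + 1260

/-- the derivative -/
def RR' (L T : ℝ) : ℝ := -324 * T ^ 8 + 280 * (L - 36) * T ^ 7 - (35 * L - 36)

/-- the second derivative -/
def RR'' (L T : ℝ) : ℝ := T ^ 6 * (1960 * (L - 36) - 2592 * T)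

/-- the inflection point -/
noncomputable def Ts (L : ℝ) : ℝ := 245 * (L - 36) / 324

theorem RR_one (L : ℝ) : RR L 1 = 0 := by unfold RR; ring

theorem hasDerivAt_RR (L T : ℝ) : HasDerivAt (RR L) (RR' L T) T := by
  have h : HasDerivAt (fun T : ℝ => -36 * T ^ 9 + 35 * (L - 36) * T ^ 8 - (35 * L - 36) * T + 1260)
      (-36 * ((9 : ℕ) * T ^ (9 - 1)) + 35 * (L - 36) * ((8 : ℕ) * T ^ (8 - 1)) -
        (35 * L - 36) * 1) T :=
    ((((hasDerivAt_pow 9 T).const_mul (-36)).add ((hasDerivAt_pow 8 T).const_mul _)).sub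
      ((hasDerivAt_id T).const_mul _)).add_const _
  exact h.congr_deriv (by unfold RR'; push_cast; ring)

theorem hasDerivAt_RR' (L T : ℝ) : HasDerivAt (RR' L) (RR'' L T) T := by
  have h : HasDerivAt (fun T : ℝ => -324 * T ^ 8 + 280 * (L - 36) * T ^ 7 - (35 * L - 36))
      (-324 * ((8 : ℕ) * T ^ (8 - 1)) + 280 * (L - 36) * ((7 : ℕ) * T ^ (7 - 1))) T :=
    (((hasDerivAt_pow 8 T).const_mul (-324)).add ((hasDerivAt_pow 7 T).const_mul _)).sub_const _
  exact h.congr_deriv (by unfold RR''; push_cast; ring)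

theorem continuous_RR (L : ℝ) : Continuous (RR L) := by
  unfold RR
  fun_prop

theorem convex_RR (L : ℝ) : ConvexOn ℝ (Icc 0 (Ts L)) (RR L) := by
  refine convexOn_of_hasDerivWithinAt2_nonneg (convex_Icc _ _) (continuous_RR L).continuousOn
    (f' := RR' L) (f'' := RR'' L) (fun x _ => (hasDerivAt_RR L x).hasDerivWithinAt)
    (fun x _ => (hasDerivAt_RR' L x).hasDerivWithinAt) ?_
  intro x hx
  rw [interior_Icc] at hx
  unfold RR''
  refine mul_nonneg (by positivity) ?_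
  have h := hx.2
  unfold Ts at h
  linarith

theorem concave_RR (L : ℝ) : ConcaveOn ℝ (Ici (Ts L)) (RR L) := by
  refine concaveOn_of_hasDerivWithinAt2_nonpos (convex_Ici _) (continuous_RR L).continuousOn
    (f' := RR' L) (f'' := RR'' L) (fun x _ => (hasDerivAt_RR L x).hasDerivWithinAt)
    (fun x _ => (hasDerivAt_RR' L x).hasDerivWithinAt) ?_
  intro x hx
  rw [interior_Ici] at hx
  unfold RR''
  have h : Ts L < x := hx
  unfold Ts at h
  exact mul_nonpos_of_nonneg_of_nonpos (by positivity) (by linarith)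

theorem conv3 {s : Set ℝ} {f : ℝ → ℝ} (h : ConvexOn ℝ s f) {x y z : ℝ} (hx : x ∈ s) (hz : z ∈ s)
    (hxy : x < y) (hyz : y < z) : (z - x) * f y ≤ (z - y) * f x + (y - x) * f z := by
  have h1 := h.slope_mono_adjacent hx hz hxy hyz
  rw [div_le_div_iff₀ (by linarith) (by linarith)] at h1
  nlinarith

theorem conc3 {s : Set ℝ} {f : ℝ → ℝ} (h : ConcaveOn ℝ s f) {x y z : ℝ} (hx : x ∈ s) (hz : z ∈ s)
    (hxy : x < y) (hyz : y < z) : (z - y) * f x + (y - x) * f z ≤ (z - x) * f y := by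
  have h1 := h.slope_anti_adjacent hx hz hxy hyz
  rw [div_le_div_iff₀ (by linarith) (by linarith)] at h1
  nlinarith

/-- The signs of the ratio polynomial. -/
theorem shape (L : ℝ) {u B : ℝ} (hu : 1 < u) (hus : u < Ts L) (hRu : RR L u < 0)
    (hRs : 0 < RR L (Ts L)) (hB : Ts L < B) (hRB : RR L B < 0) :
    ∃ Ti To, u < Ti ∧ Ti < Ts L ∧ Ts L < To ∧ To < B ∧ RR L Ti = 0 ∧ RR L To = 0 ∧
      (∀ T, 0 ≤ T → T < 1 → 0 < RR L T) ∧ (∀ T, 1 < T → T < Ti → RR L T < 0) ∧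
      (∀ T, Ti < T → T < To → 0 < RR L T) ∧ (∀ T, To < T → RR L T < 0) := by
  have hcx := convex_RR L
  have hcc := concave_RR L
  have h1 := RR_one L
  obtain ⟨Ti, hTi, hTi0⟩ := intermediate_value_Ioo hus.le (continuous_RR L).continuousOn
    (show (0 : ℝ) ∈ Ioo (RR L u) (RR L (Ts L)) from ⟨hRu, hRs⟩)
  obtain ⟨To, hTo, hTo0⟩ := intermediate_value_Ioo' hB.le (continuous_RR L).continuousOn
    (show (0 : ℝ) ∈ Ioo (RR L B) (RR L (Ts L)) from ⟨hRB, hRs⟩)
  refine ⟨Ti, To, hTi.1, hTi.2, hTo.1, hTo.2, hTi0, hTo0, ?_, ?_, ?_, ?_⟩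
  · intro T hT0 hT1
    by_contra hn
    push Not at hn
    have h := conv3 hcx (x := T) (y := 1) (z := u) ⟨hT0, by linarith⟩ ⟨by linarith, hus.le⟩ hT1 hu
    rw [h1] at h
    nlinarith
  · intro T hT1 hT2
    rcases lt_trichotomy T u with h | h | h
    · have h3 := conv3 hcx (x := 1) (y := T) (z := u) ⟨by norm_num, by linarith⟩
        ⟨by linarith, hus.le⟩ hT1 h
      rw [h1] at h3
      have h4 : (u - 1) * RR L T < 0 := by nlinarith
      exact (pos_iff_neg_of_mul_neg h4).1 (by linarith)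
    · rw [h]; exact hRu
    · have h3 := conv3 hcx (x := u) (y := T) (z := Ti) ⟨by linarith, hus.le⟩
        ⟨by linarith [hTi.1], hTi.2.le⟩ h hT2
      rw [hTi0] at h3
      have h4 : (Ti - u) * RR L T < 0 := by nlinarith
      exact (pos_iff_neg_of_mul_neg h4).1 (by linarith)
  · intro T hT1 hT2
    rcases lt_or_ge (Ts L) T with h | h
    · have h3 := conc3 hcc (x := Ts L) (y := T) (z := To) (Set.mem_Ici.2 le_rfl) hTo.1.le h hT2
      rw [hTo0] at h3
      have h4 : 0 < (To - Ts L) * RR L T := by nlinarith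
      exact (pos_iff_pos_of_mul_pos h4).1 (by linarith [hTo.1])
    · by_contra hn
      push Not at hn
      have h3 := conv3 hcx (x := u) (y := Ti) (z := T) ⟨by linarith, hus.le⟩
        ⟨by linarith [hTi.1], h⟩ hTi.1 hT1
      rw [hTi0] at h3
      have h5 := hTi.1
      nlinarith
  · intro T hT
    by_contra hn
    push Not at hn
    have h3 := conc3 hcc (x := Ts L) (y := To) (z := T) (Set.mem_Ici.2 le_rfl)
      (hTo.1.le.trans hT.le) hTo.1 hT
    rw [hTo0] at h3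
    have h5 := hTo.1
    nlinarith

/-! ### The ratio form of the network equations -/

theorem ratio {L X Y : ℝ} (hL : 0 < L) (hX : 0 < X)
    (h1 : X ^ 8 - Y ^ 8 = L * (35 / 36) * (X ^ 8 - X))
    (h2 : Y ^ 8 - X ^ 8 = L * (1 / 36) * (Y ^ 8 - Y)) :
    RR L (Y / X) = 0 ∧ X ^ 7 * (L * (35 / 36) + (Y / X) ^ 8 - 1) = L * (35 / 36) := by
  obtain ⟨T, hT⟩ : ∃ T, T = Y / X := ⟨_, rfl⟩
  have hY : Y = T * X := by rw [hT]; field_simp
  rw [← hT]
  subst hY
  have e1 : X ^ 7 * (L * (35 / 36) + T ^ 8 - 1) = L * (35 / 36) := by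
    have : X * (X ^ 7 * (L * (35 / 36) + T ^ 8 - 1)) = X * (L * (35 / 36)) := by
      linear_combination (-1 : ℝ) * h1
    exact mul_left_cancel₀ hX.ne' this
  have e2 : X ^ 7 * (L * (1 / 36) * T ^ 8 - T ^ 8 + 1) = L * (1 / 36) * T := by
    have : X * (X ^ 7 * (L * (1 / 36) * T ^ 8 - T ^ 8 + 1)) = X * (L * (1 / 36) * T) := by
      linear_combination (-1 : ℝ) * h2
    exact mul_left_cancel₀ hX.ne' this
  refine ⟨?_, e1⟩
  have e3 : L * (RR L T) = 0 := by
    unfold RR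
    have : L * (35 / 36) * (L * (1 / 36) * T ^ 8 - T ^ 8 + 1) =
        L * (1 / 36) * T * (L * (35 / 36) + T ^ 8 - 1) := by
      linear_combination (-(L * (1 / 36) * T ^ 8 - T ^ 8 + 1)) * e1 +
        (L * (35 / 36) + T ^ 8 - 1) * e2
    linear_combination (1296 : ℝ) * this
  rcases mul_eq_zero.1 e3 with h | h
  · exact absurd h hL.ne'
  · exact h

theorem pow8_rpow {X : ℝ} (hX : 0 ≤ X) : (X ^ 8) ^ (1 / 8 : ℝ) = X := by
  have h := Real.pow_rpow_inv_natCast (n := 8) hX (by norm_num)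
  have h2 : ((8 : ℕ) : ℝ)⁻¹ = (1 / 8 : ℝ) := by norm_num
  rwa [h2] at h

theorem rpow_pow8 {x : ℝ} (hx : 0 ≤ x) : (x ^ (1 / 8 : ℝ)) ^ 8 = x := by
  have h := Real.rpow_inv_natCast_pow (n := 8) hx (by norm_num)
  have h2 : ((8 : ℕ) : ℝ)⁻¹ = (1 / 8 : ℝ) := by norm_num
  rwa [h2] at h

theorem gg_pow {X : ℝ} (hX : 0 ≤ X) : gg (1 / 8) (X ^ 8) = X ^ 8 - X := by
  unfold gg sp
  rcases hX.eq_or_lt with h | h
  · rw [← h]; simp
  · have h8 : 0 < X ^ 8 := by positivity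
    rw [abs_of_pos h8, pow8_rpow hX, sign_pos h8]
    simp

end Pool.Agent.Lib.MP_e46711_an.H35
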